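import Pool.Agent.W924.LF.Germ
import Pool.Agent.W417.HP.Der
import Pool.Agent.TH818.AP.LiLoc

/-!
# Germs of analytic functions at a point and algebraic functions
-/

set_option autoImplicit false

open Filter Set
open scoped Topology

namespace Pool.Agent.Y119.UP

/-- germs at `t₀` -/
theorem germ (t₀ : ℝ) : ∃ (E : Type) (_ : Field E) (_ : Algebra ℝ E) (D : Derivation ℝ E E)
    (T : (ℝ → ℝ) → E),
    (∀ x : E, D x = 0 → ∃ c : ℝ, algebraMap ℝ E c = x) ∧
    (∀ c : ℝ, T (fun _ => c) = algebraMap ℝ E c) ∧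
    (∀ f g : ℝ → ℝ, AnalyticAt ℝ f t₀ → AnalyticAt ℝ g t₀ → T (fun s => f s + g s) = T f + T g) ∧
    (∀ f g : ℝ → ℝ, AnalyticAt ℝ f t₀ → AnalyticAt ℝ g t₀ → T (fun s => f s * g s) = T f * T g) ∧
    (∀ f g : ℝ → ℝ, AnalyticAt ℝ f t₀ → (∀ᶠ s in 𝓝 t₀, HasDerivAt f (g s) s) →
      D (T f) = T g) ∧
    (∀ f : ℝ → ℝ, AnalyticAt ℝ f t₀ → T f = 0 → ∀ᶠ s in 𝓝 t₀, f s = 0) ∧
    (∀ f g : ℝ → ℝ, (∀ᶠ s in 𝓝 t₀, f s = g s) → T f = T g) := by
  obtain ⟨E, i1, i2, D, T, hconst, hTc, hTadd, hTmul, hTder, hTinj, hTcongr⟩ :=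
    Pool.Agent.W924.LF.t_GERM ℝ
  have hsh : ∀ g : ℝ → ℝ, AnalyticAt ℝ g t₀ → AnalyticAt ℝ (fun s => g (t₀ + s)) 0 := by
    intro g hg
    have h1 : AnalyticAt ℝ (fun s : ℝ => t₀ + s) 0 := analyticAt_const.add analyticAt_id
    have h2 : AnalyticAt ℝ g (t₀ + 0) := by rwa [add_zero]
    exact AnalyticAt.comp (g := g) (f := fun s : ℝ => t₀ + s) h2 h1
  have hmap : Tendsto (fun s : ℝ => t₀ + s) (𝓝 0) (𝓝 t₀) := by
    have h1 : Continuous fun s : ℝ => t₀ + s := by fun_prop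
    have := h1.tendsto 0
    rwa [add_zero] at this
  have hmap' : Tendsto (fun t : ℝ => t - t₀) (𝓝 t₀) (𝓝 0) := by
    have h1 : Continuous fun s : ℝ => s - t₀ := by fun_prop
    have := h1.tendsto t₀
    rwa [sub_self] at this
  refine ⟨E, i1, i2, D, fun f => T (fun s => f (t₀ + s)), hconst, hTc, fun f g hf hg =>
    hTadd _ _ (hsh f hf) (hsh g hg), fun f g hf hg => hTmul _ _ (hsh f hf) (hsh g hg), ?_, ?_, ?_⟩
  · intro f g hf hfg
    show D (T (fun s => f (t₀ + s))) = T (fun s => g (t₀ + s))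
    rw [← hTder _ (hsh f hf)]
    apply hTcongr
    filter_upwards [hmap.eventually hfg] with s hs
    exact (hs.comp_const_add t₀ s).deriv
  · intro f hf h0
    filter_upwards [hmap'.eventually (hTinj _ (hsh f hf) h0)] with t ht
    simpa using ht
  · intro f g hfg
    apply hTcongr
    exact hmap.eventually hfg

/-- two elements, the first one transcendental -/
theorem alg_iff {R E : Type} [Field R] [Field E] [Algebra R E] {τ x : E} (hτ : Transcendental R τ) :
    IsAlgebraic (IntermediateField.adjoin R {τ}) x ↔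
      ∃ P : MvPolynomial (Fin 2) R, P ≠ 0 ∧ MvPolynomial.aeval ![τ, x] P = 0 := by
  classical
  have h1 : AlgebraicIndependent R ![τ, x] ↔
      Transcendental (IntermediateField.adjoin R {τ}) x := by
    have hne : (1 : Fin 2) ∉ ({0} : Set (Fin 2)) := by simp
    have h2 := AlgebraicIndepOn.insert_iff (R := R) (x := ![τ, x]) hne
    have huniv : insert (1 : Fin 2) ({0} : Set (Fin 2)) = Set.univ := by
      ext i
      fin_cases i <;> simp
    rw [huniv] at h2
    have h3 : AlgebraicIndepOn R ![τ, x] Set.univ ↔ AlgebraicIndependent R ![τ, x] :=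
      algebraicIndependent_equiv' (Equiv.Set.univ (Fin 2)) rfl
    have h4 : AlgebraicIndepOn R ![τ, x] {0} := by
      have h5 : (![τ, x] : Fin 2 → E) 0 = τ := rfl
      rw [AlgebraicIndepOn, algebraicIndependent_unique_type_iff]
      exact hτ
    rw [← h3, h2, IntermediateField.transcendental_adjoin_iff]
    have h6 : (![τ, x] : Fin 2 → E) '' {0} = {τ} := by simp
    have h7 : (![τ, x] : Fin 2 → E) 1 = x := rfl
    rw [h6, h7]
    exact ⟨fun h => h.2, fun h => ⟨h4, h⟩⟩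
  have h8 : IsAlgebraic (IntermediateField.adjoin R {τ}) x ↔ ¬ AlgebraicIndependent R ![τ, x] := by
    rw [h1, Transcendental, not_not]
  rw [h8, algebraicIndependent_iff]
  push Not
  exact ⟨fun ⟨P, h, h'⟩ => ⟨P, h', h⟩, fun ⟨P, h, h'⟩ => ⟨P, h', h⟩⟩

/-- the function `u` is algebraic on `(α, β)` -/
def AlgOn (α β : ℝ) (u : ℝ → ℝ) : Prop :=
  ∃ P : MvPolynomial (Fin 2) ℝ, P ≠ 0 ∧ ∀ t ∈ Ioo α β, MvPolynomial.eval ![t, u t] P = 0

theorem an_eval {u : ℝ → ℝ} {t : ℝ} (hu : AnalyticAt ℝ u t) (P : MvPolynomial (Fin 2) ℝ) :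
    AnalyticAt ℝ (fun s => MvPolynomial.eval ![s, u s] P) t := by
  induction P using MvPolynomial.induction_on with
  | C a => simp only [MvPolynomial.eval_C]; exact analyticAt_const
  | add p q hp hq => simp only [map_add]; exact hp.add hq
  | mul_X p i hp =>
    simp only [map_mul, MvPolynomial.eval_X]
    refine hp.mul ?_
    fin_cases i
    · exact analyticAt_id
    · exact hu

end Pool.Agent.Y119.UP
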