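import Mathlib

/-!
# Linear independence of iterated integrals over a differential field
-/

set_option autoImplicit false

open Finset

namespace Pool.Agent.Y119.UP

/-- words of length at most `n` -/
def wd (κ : Type*) [Fintype κ] [DecidableEq κ] : ℕ → Finset (List κ)
  | 0 => {[]}
  | n + 1 => insert [] ((univ ×ˢ wd κ n).image fun p : κ × List κ => p.1 :: p.2)

lemma mem_wd {κ : Type*} [Fintype κ] [DecidableEq κ] (n : ℕ) (w : List κ) :
    w ∈ wd κ n ↔ w.length ≤ n := by
  induction n generalizing w with
  | zero => simp [wd]
  | succ n ih =>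
    cases w with
    | nil => simp [wd]
    | cons i v => simp [wd, ih]

lemma sum_wd {κ : Type*} [Fintype κ] [DecidableEq κ] {M : Type*} [AddCommMonoid M] (n : ℕ)
    (φ : List κ → M) :
    ∑ w ∈ wd κ (n + 1), φ w = φ [] + ∑ v ∈ wd κ n, ∑ i, φ (i :: v) := by
  rw [wd, sum_insert (by simp), sum_image, sum_product_right]
  intro x _ y _ h
  simp only [List.cons.injEq] at h
  exact Prod.ext h.1 h.2

section

variable {R F κ : Type*} [CommRing R] [Field F] [Algebra R F] [Fintype κ] [DecidableEq κ]

theorem indep (D : Derivation R F F) (K : Subfield F) (hDK : ∀ x ∈ K, D x ∈ K)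
    (u : κ → F) (hu : ∀ i, u i ∈ K)
    (hprim : ∀ (c : κ → F) (g : F), (∀ i, c i ∈ K) → (∀ i, D (c i) = 0) → g ∈ K →
      D g = ∑ i, c i * u i → ∀ i, c i = 0)
    (Y : List κ → F) (hY0 : Y [] = 1) (hY : ∀ i w, D (Y (i :: w)) = u i * Y w) (n : ℕ) :
    ∀ g : List κ → F, (∀ w, g w ∈ K) → ∑ w ∈ wd κ n, g w * Y w = 0 →
      ∀ w ∈ wd κ n, g w = 0 := by
  classical
  induction n with
  | zero =>
    intro g _ h0 w hw
    simp only [wd, sum_singleton, hY0, mul_one] at h0
    simp only [wd, mem_singleton] at hw
    rw [hw]; exact h0
  | succ n ih =>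
    have key : ∀ k : ℕ, ∀ g : List κ → F, (∀ w, g w ∈ K) →
        (∀ w, n + 1 < w.length → g w = 0) →
        ((wd κ (n + 1)).filter fun w => w.length = n + 1 ∧ g w ≠ 0).card ≤ k →
        ∑ w ∈ wd κ (n + 1), g w * Y w = 0 → ∀ w, w.length = n + 1 → g w = 0 := by
      intro k
      induction k with
      | zero =>
        intro g _ _ hc _ w hw
        by_contra hne
        have h1 : w ∈ (wd κ (n + 1)).filter fun w => w.length = n + 1 ∧ g w ≠ 0 := by
          rw [mem_filter, mem_wd]
          exact ⟨hw.le, hw, hne⟩
        rw [card_eq_zero.1 (Nat.le_zero.1 hc)] at h1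
        exact absurd h1 (notMem_empty _)
      | succ k ihk =>
        intro g hg hgl hc h0 w₀ hw₀
        by_contra hne
        set g' : List κ → F := fun w => (g w₀)⁻¹ * g w with hg'
        have hg'K : ∀ w, g' w ∈ K := fun w => mul_mem (inv_mem (hg w₀)) (hg w)
        have hg'l : ∀ w, n + 1 < w.length → g' w = 0 := fun w hw => by
          simp only [hg', hgl w hw, mul_zero]
        have hg'1 : g' w₀ = 1 := inv_mul_cancel₀ hne
        have hg'0 : ∑ w ∈ wd κ (n + 1), g' w * Y w = 0 := by
          have : ∑ w ∈ wd κ (n + 1), g' w * Y w = (g w₀)⁻¹ * ∑ w ∈ wd κ (n + 1), g w * Y w := by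
            rw [mul_sum]
            exact sum_congr rfl fun w _ => by simp only [hg']; ring
          rw [this, h0, mul_zero]
        set δ : List κ → F := fun v => D (g' v) + ∑ i, g' (i :: v) * u i with hδ
        have hδK : ∀ w, δ w ∈ K := fun w =>
          add_mem (hDK _ (hg'K w)) (sum_mem fun i _ => mul_mem (hg'K _) (hu i))
        have hδl : ∀ w, n + 1 < w.length → δ w = 0 := by
          intro w hw
          simp only [hδ]
          rw [hg'l w hw, map_zero, zero_add]
          refine sum_eq_zero fun i _ => ?_
          rw [hg'l _ (by simp; omega), zero_mul]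
        have htop : ∀ w, w.length = n + 1 → δ w = D (g' w) := by
          intro w hw
          simp only [hδ]
          rw [sum_eq_zero fun i _ => by rw [hg'l _ (by simp; omega), zero_mul], add_zero]
        have hδ0 : ∑ w ∈ wd κ (n + 1), δ w * Y w = 0 := by
          have h1 : D (∑ w ∈ wd κ (n + 1), g' w * Y w) = 0 := by rw [hg'0, map_zero]
          rw [map_sum] at h1
          have h2 : ∀ w, D (g' w * Y w) = g' w * D (Y w) + D (g' w) * Y w := fun w => by
            rw [Derivation.leibniz, smul_eq_mul, smul_eq_mul, mul_comm (Y w)]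
          simp only [h2] at h1
          rw [sum_add_distrib] at h1
          have h3 : ∑ w ∈ wd κ (n + 1), g' w * D (Y w) =
              ∑ w ∈ wd κ (n + 1), (∑ i, g' (i :: w) * u i) * Y w := by
            rw [sum_wd, hY0, D.map_one_eq_zero, mul_zero, zero_add]
            have h4 : ∑ w ∈ wd κ (n + 1), (∑ i, g' (i :: w) * u i) * Y w =
                ∑ w ∈ wd κ n, (∑ i, g' (i :: w) * u i) * Y w := by
              symm
              refine sum_subset (fun w hw => ?_) fun w hw hw' => ?_
              · rw [mem_wd] at hw ⊢; omega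
              · rw [mem_wd] at hw hw'
                rw [sum_eq_zero fun i _ => by rw [hg'l _ (by simp; omega), zero_mul], zero_mul]
            rw [h4]
            refine sum_congr rfl fun w _ => ?_
            rw [sum_mul]
            exact sum_congr rfl fun i _ => by rw [hY]; ring
          rw [h3, ← sum_add_distrib] at h1
          rw [← h1]
          exact sum_congr rfl fun w _ => by simp only [hδ]; ring
        have hδc : ((wd κ (n + 1)).filter fun w => w.length = n + 1 ∧ δ w ≠ 0).card ≤ k := by
          have hsub : ((wd κ (n + 1)).filter fun w => w.length = n + 1 ∧ δ w ≠ 0) ⊆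
              ((wd κ (n + 1)).filter fun w => w.length = n + 1 ∧ g w ≠ 0).erase w₀ := by
            intro w hw
            rw [mem_filter] at hw
            obtain ⟨h1, h2, h3⟩ := hw
            rw [htop w h2] at h3
            rw [mem_erase, mem_filter]
            refine ⟨?_, h1, h2, ?_⟩
            · rintro rfl
              rw [hg'1, D.map_one_eq_zero] at h3
              exact h3 rfl
            · intro h4
              simp only [hg', h4, mul_zero, map_zero] at h3
              exact h3 rfl
          have hmem : w₀ ∈ (wd κ (n + 1)).filter fun w => w.length = n + 1 ∧ g w ≠ 0 := by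
            rw [mem_filter, mem_wd]
            exact ⟨hw₀.le, hw₀, hne⟩
          have := card_le_card hsub
          rw [card_erase_of_mem hmem] at this
          omega
        have hδtop := ihk δ hδK hδl hδc hδ0
        have hδn : ∑ w ∈ wd κ n, δ w * Y w = 0 := by
          rw [← hδ0]
          refine sum_subset (fun w hw => ?_) fun w hw hw' => ?_
          · rw [mem_wd] at hw ⊢; omega
          · rw [mem_wd] at hw hw'
            rw [hδtop w (by omega), zero_mul]
        have hδall := ih δ hδK hδn
        cases w₀ with
        | nil => simp at hw₀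
        | cons i₀ v₀ =>
          have hv₀ : v₀.length = n := by simpa using hw₀
          have h5 := hδall v₀ ((mem_wd _ _).2 hv₀.le)
          have h6 := hprim (fun i => g' (i :: v₀)) (-g' v₀) (fun i => hg'K _) (fun i => by
            have hl : (i :: v₀).length = n + 1 := by simp [hv₀]
            have h7 := hδtop _ hl
            rwa [htop _ hl] at h7) (neg_mem (hg'K _)) (by
            simp only [hδ] at h5
            rw [map_neg]
            exact neg_eq_of_add_eq_zero_right h5) i₀
          rw [hg'1] at h6
          exact one_ne_zero h6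
    intro g hg h0 w hw
    set g₁ : List κ → F := fun w => if w.length ≤ n + 1 then g w else 0 with hg₁
    have hg₁K : ∀ w, g₁ w ∈ K := fun w => by
      simp only [hg₁]; split_ifs; exacts [hg w, zero_mem _]
    have hg₁l : ∀ w, n + 1 < w.length → g₁ w = 0 := fun w hw => if_neg (by omega)
    have hg₁e : ∀ w ∈ wd κ (n + 1), g₁ w = g w := fun w hw => if_pos ((mem_wd _ _).1 hw)
    have h01 : ∑ w ∈ wd κ (n + 1), g₁ w * Y w = 0 := by
      rw [← h0]
      exact sum_congr rfl fun w hw => by rw [hg₁e w hw]
    have htop := key _ g₁ hg₁K hg₁l le_rfl h01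
    have hn : ∑ w ∈ wd κ n, g₁ w * Y w = 0 := by
      rw [← h01]
      refine sum_subset (fun w hw => ?_) fun w hw hw' => ?_
      · rw [mem_wd] at hw ⊢; omega
      · rw [mem_wd] at hw hw'
        rw [htop w (by omega), zero_mul]
    rw [← hg₁e w hw]
    rw [mem_wd] at hw
    rcases Nat.lt_or_ge n w.length with h | h
    · exact htop w (by omega)
    · exact ih g₁ hg₁K hn w ((mem_wd _ _).2 h)

end

end Pool.Agent.Y119.UP
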