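import Pool.Agent.Y119.UP.Ind
import Pool.Agent.TH659.HY.Fld2
import Pool.Agent.TH659.HY.Fun

/-!
# Hyperelliptic differentials and logarithmic differentials
-/

set_option autoImplicit false

open Filter Set Polynomial
open scoped Topology

namespace Pool.Agent.Y119.UP

open Pool.Agent.TH659.HY

/-- nonzero linear combinations of algebraically independent elements are transcendental -/
theorem trans_sum {k E ι : Type} [Field k] [Field E] [Algebra k E] [Fintype ι] {y : ι → E}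
    (hy : AlgebraicIndependent k y) {c : ι → k} {i₀ : ι} (hc : c i₀ ≠ 0) :
    Transcendental k (∑ i, algebraMap k E (c i) * y i) := by
  classical
  rw [transcendental_iff]
  intro q hq
  let P : MvPolynomial ι k := ∑ i, MvPolynomial.C (c i) * MvPolynomial.X i
  have h1 : MvPolynomial.aeval y P = ∑ i, algebraMap k E (c i) * y i := by
    simp only [P, map_sum, map_mul, MvPolynomial.aeval_X]
    refine Finset.sum_congr rfl fun i _ => ?_
    rw [MvPolynomial.algHom_C]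
  have h2 : MvPolynomial.aeval y (Polynomial.aeval P q) = 0 := by
    rw [← Polynomial.aeval_algHom_apply, h1]; exact hq
  have h3 : Polynomial.aeval P q = 0 := hy.eq_zero_of_aeval_eq_zero _ h2
  let φ : MvPolynomial ι k →ₐ[k] k[X] :=
    MvPolynomial.aeval fun i => if i = i₀ then C (c i₀)⁻¹ * X else 0
  have h4 : φ P = X := by
    simp only [P, φ, map_sum, map_mul, MvPolynomial.aeval_X]
    rw [Finset.sum_eq_single i₀]
    · rw [if_pos rfl, MvPolynomial.algHom_C, Polynomial.algebraMap_eq, ← mul_assoc, ← C_mul,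
        mul_inv_cancel₀ hc, C_1, one_mul]
    · intro b _ hb
      rw [if_neg hb, mul_zero]
    · simp
  have h5 := congrArg φ h3
  rw [← Polynomial.aeval_algHom_apply, h4, map_zero, Polynomial.aeval_X_left_apply] at h5
  exact h5

variable {k r : ℕ}

/-- the letters: `t ^ i / √f(t)`, `i < k`, and `1 / (t + x_j)` -/
noncomputable def uH (f : ℝ[X]) (x : Fin r → ℝ) : Fin k ⊕ Fin r → ℝ → ℝ
  | Sum.inl i => fun t => t ^ (i : ℕ) / √(f.eval t)
  | Sum.inr j => fun t => 1 / (t + x j)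

/-- the multipliers `1`, `√f(t)` -/
noncomputable def vH (f : ℝ[X]) : Fin 2 → ℝ → ℝ := ![fun _ => 1, fun t => √(f.eval t)]

theorem algOn_one (α β : ℝ) : AlgOn α β fun _ => 1 := by
  refine ⟨MvPolynomial.X 1 - 1, fun h => ?_, fun t _ => by simp⟩
  have := congrArg (MvPolynomial.eval ![0, 0]) h
  simp at this

/-- a polynomial in the first variable -/
noncomputable def lift0 (f : ℝ[X]) : MvPolynomial (Fin 2) ℝ :=
  Polynomial.aeval (MvPolynomial.X 0 : MvPolynomial (Fin 2) ℝ) f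

theorem eval_lift0 (f : ℝ[X]) (t y : ℝ) : MvPolynomial.eval ![t, y] (lift0 f) = f.eval t := by
  unfold lift0
  have h1 := Polynomial.aeval_algHom_apply (MvPolynomial.aeval ![t, y] : MvPolynomial (Fin 2) ℝ →ₐ[ℝ] ℝ)
    (MvPolynomial.X 0) f
  rw [MvPolynomial.aeval_X] at h1
  have h2 : (MvPolynomial.aeval ![t, y] : MvPolynomial (Fin 2) ℝ →ₐ[ℝ] ℝ)
      (Polynomial.aeval (MvPolynomial.X 0) f) =
      MvPolynomial.eval ![t, y] (Polynomial.aeval (MvPolynomial.X 0) f) := by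
    exact congrArg (fun φ : MvPolynomial (Fin 2) ℝ →+* ℝ => φ (Polynomial.aeval (MvPolynomial.X 0) f))
      (MvPolynomial.coe_aeval_eq_eval ![t, y])
  rw [← h2, ← h1]
  simp

theorem algOn_sqrt (f : ℝ[X]) {α β : ℝ} (h : ∀ t ∈ Ioo α β, 0 < f.eval t) :
    AlgOn α β fun t => √(f.eval t) := by
  refine ⟨MvPolynomial.X 1 ^ 2 - lift0 f, fun h => ?_, fun t ht => ?_⟩
  · have h1 := congrArg (MvPolynomial.eval ![0, |f.eval 0| + 1]) h
    rw [map_sub, map_pow, MvPolynomial.eval_X, eval_lift0, map_zero] at h1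
    simp only [Matrix.cons_val_one, Matrix.cons_val_fin_one] at h1
    nlinarith [abs_nonneg (f.eval 0), le_abs_self (f.eval 0)]
  · rw [map_sub, map_pow, MvPolynomial.eval_X, eval_lift0]
    simp only [Matrix.cons_val_one, Matrix.cons_val_fin_one]
    rw [Real.sq_sqrt (h t ht).le, sub_self]

theorem algOn_inl (f : ℝ[X]) {α β : ℝ} (h : ∀ t ∈ Ioo α β, 0 < f.eval t) (i : ℕ) :
    AlgOn α β fun t => t ^ i / √(f.eval t) := by
  refine ⟨lift0 f * MvPolynomial.X 1 ^ 2 - MvPolynomial.X 0 ^ (2 * i), fun h => ?_, fun t ht => ?_⟩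
  · have h1 := congrArg (MvPolynomial.eval ![1, 0]) h
    rw [map_sub, map_mul, map_pow, map_pow, MvPolynomial.eval_X, MvPolynomial.eval_X, map_zero] at h1
    simp at h1
  · rw [map_sub, map_mul, map_pow, map_pow, MvPolynomial.eval_X, MvPolynomial.eval_X, eval_lift0]
    simp only [Matrix.cons_val_one, Matrix.cons_val_fin_one, Matrix.cons_val_zero]
    rw [div_pow, Real.sq_sqrt (h t ht).le, mul_div_cancel₀ _ (h t ht).ne', ← pow_mul, mul_comm i 2,
      sub_self]

theorem algOn_inr {α β x : ℝ} (h : ∀ t ∈ Ioo α β, t + x ≠ 0) : AlgOn α β fun t => 1 / (t + x) := by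
  refine ⟨(MvPolynomial.X 0 + MvPolynomial.C x) * MvPolynomial.X 1 - 1, fun h => ?_, fun t ht => ?_⟩
  · have h1 := congrArg (MvPolynomial.eval ![0, 0]) h
    simp at h1
  · simp [h t ht]

theorem an_inr {x t : ℝ} (h : t + x ≠ 0) : AnalyticAt ℝ (fun t => 1 / (t + x)) t :=
  analyticAt_const.div (analyticAt_id.add analyticAt_const) h

theorem uH_an (f : ℝ[X]) (x : Fin r → ℝ) {α β : ℝ} (h : ∀ t ∈ Ioo α β, 0 < f.eval t)
    (hx : ∀ j, ∀ t ∈ Ioo α β, t + x j ≠ 0) (i : Fin k ⊕ Fin r) :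
    AnalyticOnNhd ℝ (uH (k := k) f x i) (Ioo α β) := by
  rcases i with i | j
  · exact fun t ht => an_int f i (h t ht)
  · exact fun t ht => an_inr (hx j t ht)

theorem uH_alg (f : ℝ[X]) (x : Fin r → ℝ) {α β : ℝ} (h : ∀ t ∈ Ioo α β, 0 < f.eval t)
    (hx : ∀ j, ∀ t ∈ Ioo α β, t + x j ≠ 0) (i : Fin k ⊕ Fin r) :
    AlgOn α β (uH (k := k) f x i) := by
  rcases i with i | j
  · exact algOn_inl f h i
  · exact algOn_inr (hx j)

/-- the setting at a point -/
theorem setting (f : ℝ[X]) (hf : Squarefree f) (hm : 1 ≤ f.natDegree) {α β t₀ : ℝ}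
    (h : ∀ t ∈ Ioo α β, 0 < f.eval t) (ht₀ : t₀ ∈ Ioo α β) :
    ∃ (E : Type) (_ : Field E) (_ : Algebra ℝ E) (D : Derivation ℝ E E) (T : (ℝ → ℝ) → E),
    (∀ x : E, D x = 0 → ∃ c : ℝ, algebraMap ℝ E c = x) ∧
    (∀ c : ℝ, T (fun _ => c) = algebraMap ℝ E c) ∧
    (∀ f g : ℝ → ℝ, AnalyticAt ℝ f t₀ → AnalyticAt ℝ g t₀ → T (fun s => f s + g s) = T f + T g) ∧
    (∀ f g : ℝ → ℝ, AnalyticAt ℝ f t₀ → AnalyticAt ℝ g t₀ → T (fun s => f s * g s) = T f * T g) ∧
    (∀ f g : ℝ → ℝ, AnalyticAt ℝ f t₀ → (∀ᶠ s in 𝓝 t₀, HasDerivAt f (g s) s) →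
      D (T f) = T g) ∧
    (∀ f : ℝ → ℝ, AnalyticAt ℝ f t₀ → T f = 0 → ∀ᶠ s in 𝓝 t₀, f s = 0) ∧
    (∀ f g : ℝ → ℝ, (∀ᶠ s in 𝓝 t₀, f s = g s) → T f = T g) ∧
    (∀ P : ℝ[X], T (fun s => P.eval s) = aeval (T fun s => s) P) ∧
    (∀ (f : ℝ → ℝ), AnalyticAt ℝ f t₀ → ∀ P : MvPolynomial (Fin 2) ℝ,
      T (fun s => MvPolynomial.eval ![s, f s] P) = MvPolynomial.aeval ![T fun s => s, T f] P) ∧
    Data f D (T fun s => s) (T fun s => √(f.eval s)) := by
  obtain ⟨E, i1, i2, D, T, hconst, hTc, hTadd, hTmul, hTder, hTinj, hTcongr⟩ := germ t₀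
  have hid : AnalyticAt ℝ (fun s : ℝ => s) t₀ := analyticAt_id
  have hT1 : T (fun _ => 1) = 1 := by rw [hTc, map_one]
  have hDτ : D (T fun s => s) = 1 := by
    rw [hTder _ (fun _ => 1) hid (Eventually.of_forall fun s => hasDerivAt_id s), hT1]
  have hpolyan : ∀ P : ℝ[X], AnalyticAt ℝ (fun s => P.eval s) t₀ := fun P =>
    AnalyticOnNhd.eval_polynomial P t₀ (mem_univ _)
  have hpoly : ∀ P : ℝ[X], T (fun s => P.eval s) = aeval (T fun s => s) P := by
    intro P
    induction P using Polynomial.induction_on with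
    | C x => simp only [eval_C, aeval_C]; exact hTc x
    | add P Q hP hQ =>
      simp only [eval_add, map_add]
      rw [hTadd _ _ (hpolyan P) (hpolyan Q), hP, hQ]
    | monomial n x ih =>
      have h1 : (fun s => (C x * X ^ (n + 1)).eval s) = fun s => (C x * X ^ n).eval s * s := by
        funext s
        rw [pow_succ, ← mul_assoc, eval_mul, eval_X]
      rw [h1, hTmul _ _ (hpolyan _) hid, ih, pow_succ, ← mul_assoc, map_mul _ _ X, aeval_X]
  have hmv : ∀ (f : ℝ → ℝ), AnalyticAt ℝ f t₀ → ∀ P : MvPolynomial (Fin 2) ℝ,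
      T (fun s => MvPolynomial.eval ![s, f s] P) = MvPolynomial.aeval ![T fun s => s, T f] P := by
    intro f hf P
    induction P using MvPolynomial.induction_on with
    | C x => simp only [MvPolynomial.eval_C, MvPolynomial.aeval_C]; exact hTc x
    | add P Q hP hQ =>
      simp only [map_add]
      rw [hTadd _ _ (an_eval hf P) (an_eval hf Q), hP, hQ]
    | mul_X P i ih =>
      simp only [map_mul, MvPolynomial.eval_X, MvPolynomial.aeval_X]
      rw [hTmul _ _ (an_eval hf P) (by fin_cases i; exacts [hid, hf]), ih]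
      congr 1
      fin_cases i <;> rfl
  refine ⟨E, i1, i2, D, T, hconst, hTc, hTadd, hTmul, hTder, hTinj, hTcongr, hpoly, hmv, ?_, hDτ,
    ?_, hf, hm⟩
  · intro Q hQ
    rw [← hpoly] at hQ
    have h1 := hTinj _ (hpolyan Q) hQ
    exact Polynomial.eq_zero_of_infinite_isRoot Q (infinite_of_mem_nhds t₀ h1)
  · rw [← hTmul _ _ (sqrt_an f (h t₀ ht₀)) (sqrt_an f (h t₀ ht₀)), ← hpoly]
    apply hTcongr
    filter_upwards [Ioo_mem_nhds ht₀.1 ht₀.2] with s hs
    exact Real.mul_self_sqrt (h s hs).le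

theorem uH_prim (f : ℝ[X]) (hf : Squarefree f) (hk : k + 1 ≤ f.natDegree) (x : Fin r → ℝ)
    (hxi : Function.Injective x) {α β : ℝ} (hαβ : α < β) (h : ∀ t ∈ Ioo α β, 0 < f.eval t)
    (hx : ∀ j, ∀ t ∈ Ioo α β, t + x j ≠ 0) (c : Fin k ⊕ Fin r → ℝ)
    (hc : AlgPrim α β fun t => ∑ i, c i * uH (k := k) f x i t) : c = 0 := by
  classical
  set t₀ : ℝ := (α + β) / 2 with ht₀def
  have ht₀ : t₀ ∈ Ioo α β := ⟨by rw [ht₀def]; linarith, by rw [ht₀def]; linarith⟩
  obtain ⟨E, _, _, D, T, hconst, hTc, hTadd, hTmul, hTder, hTinj, hTcongr, hpoly, hmv, hdata⟩ :=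
    setting f hf (by omega) h ht₀
  have : CharZero E := charZero_of_injective_algebraMap (algebraMap ℝ E).injective
  set τ : E := T fun s => s with hτ
  have hT0 : T (fun _ => 0) = 0 := by rw [hTc, map_zero]
  have hTsum : ∀ {ι : Type} (s : Finset ι) (f : ι → ℝ → ℝ), (∀ i, AnalyticAt ℝ (f i) t₀) →
      T (fun t => ∑ i ∈ s, f i t) = ∑ i ∈ s, T (f i) := by
    intro ι s f hf
    classical
    induction s using Finset.induction_on with
    | empty => simp only [Finset.sum_empty]; exact hT0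
    | insert i s hi ih =>
      simp only [Finset.sum_insert hi]
      rw [hTadd _ _ (hf i) (Finset.analyticAt_fun_sum _ fun i _ => hf i), ih]
  have huan := uH_an (k := k) f x h hx
  -- primitives
  choose U hUan hUd using fun i => Pool.Agent.TH818.AP.LiLoc.primitive (huan i t₀ ht₀)
  have hDU : ∀ i, D (T (U i)) = T (uH f x i) := fun i => hTder _ _ (hUan i) (hUd i)
  have hy : ∀ i : Fin k, D (T (U (Sum.inl i))) * (T fun s => √(f.eval s)) =
      aeval τ (X ^ (i : ℕ) : ℝ[X]) := by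
    intro i
    rw [hDU, ← hTmul _ _ (huan _ t₀ ht₀) (sqrt_an f (h t₀ ht₀)), ← hpoly]
    apply hTcongr
    filter_upwards [Ioo_mem_nhds ht₀.1 ht₀.2] with s hs
    have h3 : √(f.eval s) ≠ 0 := (Real.sqrt_pos.2 (h s hs)).ne'
    rw [eval_pow, eval_X]
    simp only [uH]
    field_simp
  have hz : ∀ j : Fin r, D (T (U (Sum.inr j))) * aeval τ (X + C (x j)) = 1 := by
    intro j
    rw [hDU, ← hpoly, ← hTmul _ _ (huan _ t₀ ht₀) (AnalyticOnNhd.eval_polynomial _ t₀ (mem_univ _)),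
      ← map_one (algebraMap ℝ E), ← hTc]
    apply hTcongr
    filter_upwards [Ioo_mem_nhds ht₀.1 ht₀.2] with s hs
    simp only [uH, eval_add, eval_X, eval_C]
    have := hx j s hs
    field_simp
  have hind := indepL hdata hconst k r hk x hxi (fun i => T (U i)) hy hz
  obtain ⟨g, ⟨P, hP0, hP⟩, hg⟩ := hc
  have hgan : AnalyticOnNhd ℝ g (Ioo α β) := an_of_deriv (fun t ht =>
    Finset.analyticAt_fun_sum _ fun i _ => analyticAt_const.mul (huan i t ht)) hg
  have hnear : ∀ᶠ s in 𝓝 t₀, s ∈ Ioo α β := Ioo_mem_nhds ht₀.1 ht₀.2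
  have hDg : D (T g) = ∑ i, algebraMap ℝ E (c i) * T (uH f x i) := by
    rw [hTder _ _ (hgan t₀ ht₀) (hnear.mono fun s hs => hg s hs),
      hTsum Finset.univ (fun i t => c i * uH (k := k) f x i t)
        fun i => analyticAt_const.mul (huan i t₀ ht₀)]
    refine Finset.sum_congr rfl fun i _ => ?_
    rw [hTmul (fun _ => c i) _ analyticAt_const (huan i t₀ ht₀), hTc]
  have h1 : D (T g - ∑ i, algebraMap ℝ E (c i) * T (U i)) = 0 := by
    rw [map_sub, hDg, map_sum, sub_eq_zero]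
    refine Finset.sum_congr rfl fun i _ => ?_
    rw [Derivation.leibniz, Derivation.map_algebraMap, smul_zero, add_zero, hDU, smul_eq_mul]
  obtain ⟨e, he⟩ := hconst _ h1
  -- algebraic over the field
  have hτtr : Transcendental ℝ τ := by
    rw [transcendental_iff]
    exact fun P hP => hdata.tr P hP
  have hTgalg : IsAlgebraic (IntermediateField.adjoin ℝ {τ}) (T g) := by
    rw [alg_iff hτtr]
    refine ⟨P, hP0, ?_⟩
    rw [← hmv g (hgan t₀ ht₀), ← hT0]
    apply hTcongr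
    filter_upwards [hnear] with s hs
    exact hP s hs
  have hle : IntermediateField.adjoin ℝ {τ} ≤ Fd hdata := by
    rw [IntermediateField.adjoin_le_iff]
    rintro s rfl
    have := poly_mem hdata X
    rwa [aeval_X] at this
  have hTgalg' : IsAlgebraic (Fd hdata) (T g) :=
    IsAlgebraic.tower_top_of_subalgebra_le (A := (IntermediateField.adjoin ℝ {τ}).toSubalgebra)
      (B := (Fd hdata).toSubalgebra) hle hTgalg
  by_contra hne
  obtain ⟨i₀, hi₀⟩ : ∃ i, c i ≠ 0 := by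
    by_contra hcon
    push Not at hcon
    exact hne (funext hcon)
  have htr := trans_sum hind (c := fun i => algebraMap ℝ (Fd hdata) (c i)) (i₀ := i₀) (by
    rw [Ne, map_eq_zero]; exact hi₀)
  apply htr
  have h5 : ∑ i, algebraMap (Fd hdata) E (algebraMap ℝ (Fd hdata) (c i)) * T (U i) =
      T g - algebraMap ℝ E e := by
    rw [he]
    have h6 : ∀ i, algebraMap (Fd hdata) E (algebraMap ℝ (Fd hdata) (c i)) = algebraMap ℝ E (c i) :=
      fun i => rfl
    simp only [h6]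
    ring
  rw [h5]
  refine hTgalg'.sub ?_
  have h7 : algebraMap ℝ E e = algebraMap (Fd hdata) E (algebraMap ℝ (Fd hdata) e) := rfl
  rw [h7]
  exact isAlgebraic_algebraMap _

theorem vH_ind (f : ℝ[X]) (hf : Squarefree f) (hm : 1 ≤ f.natDegree) {α β : ℝ} (hαβ : α < β)
    (h : ∀ t ∈ Ioo α β, 0 < f.eval t) (p : Fin 2 → ℝ[X])
    (hp : ∀ t ∈ Ioo α β, ∑ l, (p l).eval t * vH f l t = 0) : p = 0 := by
  set t₀ : ℝ := (α + β) / 2 with ht₀def
  have ht₀ : t₀ ∈ Ioo α β := ⟨by rw [ht₀def]; linarith, by rw [ht₀def]; linarith⟩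
  obtain ⟨E, _, _, D, T, hconst, hTc, hTadd, hTmul, hTder, hTinj, hTcongr, hpoly, hmv, hdata⟩ :=
    setting f hf hm h ht₀
  have hpolyan : ∀ P : ℝ[X], AnalyticAt ℝ (fun s => P.eval s) t₀ := fun P =>
    AnalyticOnNhd.eval_polynomial P t₀ (mem_univ _)
  have h1 : aeval (T fun s => s) (p 0) + aeval (T fun s => s) (p 1) * (T fun s => √(f.eval s)) = 0 := by
    rw [← hpoly, ← hpoly, ← hTmul _ _ (hpolyan _) (sqrt_an f (h t₀ ht₀)),
      ← hTadd (fun s => (p 0).eval s) (fun s => (p 1).eval s * √(f.eval s)) (hpolyan _)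
        ((hpolyan _).mul (sqrt_an f (h t₀ ht₀))), ← map_zero (algebraMap ℝ E), ← hTc]
    apply hTcongr
    filter_upwards [Ioo_mem_nhds ht₀.1 ht₀.2] with s hs
    have := hp s hs
    simpa [vH, Fin.sum_univ_two] using this
  obtain ⟨h2, h3⟩ := sep hdata _ _ h1
  funext l
  fin_cases l
  · exact h2
  · exact h3

theorem vH_an (f : ℝ[X]) {α β : ℝ} (h : ∀ t ∈ Ioo α β, 0 < f.eval t) (l : Fin 2) :
    AnalyticOnNhd ℝ (vH f l) (Ioo α β) := by
  fin_cases l
  · exact fun t _ => analyticAt_const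
  · exact fun t ht => sqrt_an f (h t ht)

theorem vH_alg (f : ℝ[X]) {α β : ℝ} (h : ∀ t ∈ Ioo α β, 0 < f.eval t) (l : Fin 2) :
    AlgOn α β (vH f l) := by
  fin_cases l
  · exact algOn_one α β
  · exact algOn_sqrt f h

end Pool.Agent.Y119.UP
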