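import Pool.Agent.Y119.UP.Alg
import Pool.Agent.Y119.UP.Germ
import Pool.Agent.TH818.AP.Unif

/-!
# Iterated integrals of algebraic functions are linearly independent over algebraic functions
-/

set_option autoImplicit false

open Filter Set Polynomial
open scoped Topology

namespace Pool.Agent.Y119.UP

open Pool.Agent.TH818.AP

/-- analytic functions on an interval with an analytic derivative -/
theorem an_of_deriv {α β : ℝ} {f g : ℝ → ℝ} (hg : AnalyticOnNhd ℝ g (Ioo α β))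
    (h : ∀ t ∈ Ioo α β, HasDerivAt f (g t) t) : AnalyticOnNhd ℝ f (Ioo α β) := by
  intro t ht
  obtain ⟨G, hG, hGd⟩ := Pool.Agent.TH818.AP.LiLoc.primitive (hg t ht)
  have h1 : ∀ᶠ s in 𝓝 t, HasDerivAt G (g s) s ∧ s ∈ Ioo α β := hGd.and (Ioo_mem_nhds ht.1 ht.2)
  obtain ⟨r, hr, hball⟩ := Metric.eventually_nhds_iff_ball.1 h1
  have hd : ∀ s ∈ Metric.ball t r, HasDerivAt (fun s => f s - G s) 0 s := by
    intro s hs
    have h2 := (h s (hball s hs).2).sub (hball s hs).1
    rwa [sub_self] at h2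
  have hconst : ∀ s ∈ Metric.ball t r, f s - G s = f t - G t := by
    intro s hs
    exact Metric.isOpen_ball.is_const_of_deriv_eq_zero (Metric.isPreconnected_ball)
      (fun s hs => (hd s hs).differentiableAt.differentiableWithinAt)
      (fun s hs => (hd s hs).deriv) hs (Metric.mem_ball_self hr)
  have h3 : (fun s => G s + (f t - G t)) =ᶠ[𝓝 t] f := by
    filter_upwards [Metric.ball_mem_nhds t hr] with s hs
    have := hconst s hs
    linarith
  exact (hG.add analyticAt_const).congr h3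

theorem iter_an {κ : Type} {α β : ℝ} {u : κ → ℝ → ℝ} (hu : ∀ i, AnalyticOnNhd ℝ (u i) (Ioo α β))
    {I : List κ → ℝ → ℝ} (hI0 : ∀ t ∈ Ioo α β, I [] t = 1)
    (hI : ∀ i w, ∀ t ∈ Ioo α β, HasDerivAt (I (i :: w)) (u i t * I w t) t) (w : List κ) :
    AnalyticOnNhd ℝ (I w) (Ioo α β) := by
  induction w with
  | nil =>
    intro t ht
    refine (analyticAt_const (v := (1 : ℝ))).congr ?_
    filter_upwards [Ioo_mem_nhds ht.1 ht.2] with s hs
    exact (hI0 s hs).symm
  | cons i w ih => exact an_of_deriv (fun t ht => (hu i t ht).mul (ih t ht)) (hI i w)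

/-- zero near a point, hence everywhere -/
theorem zero_of_near {α β t₀ : ℝ} (ht₀ : t₀ ∈ Ioo α β) {f : ℝ → ℝ}
    (hf : AnalyticOnNhd ℝ f (Ioo α β)) (h : ∀ᶠ s in 𝓝 t₀, f s = 0) : ∀ t ∈ Ioo α β, f t = 0 :=
  fun _ ht => hf.eqOn_zero_of_preconnected_of_eventuallyEq_zero isPreconnected_Ioo ht₀ h ht

variable {κ ρ : Type} [Fintype κ] [DecidableEq κ] [Fintype ρ]

/-- a function has an algebraic primitive -/
def AlgPrim (α β : ℝ) (f : ℝ → ℝ) : Prop :=
  ∃ g : ℝ → ℝ, AlgOn α β g ∧ ∀ t ∈ Ioo α β, HasDerivAt g (f t) t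

theorem main_ind {α β a b : ℝ} (ha : α < a) (hab : a < b) (hb : b < β)
    {u : κ → ℝ → ℝ} (hu : ∀ i, AnalyticOnNhd ℝ (u i) (Ioo α β)) (hua : ∀ i, AlgOn α β (u i))
    (hprim : ∀ c : κ → ℝ, AlgPrim α β (fun t => ∑ i, c i * u i t) → c = 0)
    {v : ρ → ℝ → ℝ} (hv : ∀ l, AnalyticOnNhd ℝ (v l) (Ioo α β)) (hva : ∀ l, AlgOn α β (v l))
    (hvi : ∀ p : ρ → ℝ[X], (∀ t ∈ Ioo α β, ∑ l, (p l).eval t * v l t = 0) → p = 0)
    {I : List κ → ℝ → ℝ} (hI0 : ∀ t ∈ Ioo α β, I [] t = 1)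
    (hI : ∀ i w, ∀ t ∈ Ioo α β, HasDerivAt (I (i :: w)) (u i t * I w t) t) (W : ℕ) :
    RIndep (fun (x : {w // w ∈ wd κ W} × ρ) (t : ℝ) => v x.2 t * I x.1 t) a b := by
  classical
  intro p hp
  set t₀ : ℝ := (a + b) / 2 with ht₀def
  have ht₀' : t₀ ∈ Ioo a b := ⟨by rw [ht₀def]; linarith, by rw [ht₀def]; linarith⟩
  have ht₀ : t₀ ∈ Ioo α β := ⟨by linarith [ht₀'.1], by linarith [ht₀'.2]⟩
  obtain ⟨E, _, _, D, T, hconst, hTc, hTadd, hTmul, hTder, hTinj, hTcongr⟩ := germ t₀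
  have : CharZero E := charZero_of_injective_algebraMap (algebraMap ℝ E).injective
  set τ : E := T (fun s => s) with hτ
  have hid : AnalyticAt ℝ (fun s : ℝ => s) t₀ := analyticAt_id
  have hT0 : T (fun _ => 0) = 0 := by rw [hTc, map_zero]
  have hT1 : T (fun _ => 1) = 1 := by rw [hTc, map_one]
  have hDτ : D τ = 1 := by
    rw [hτ, hTder _ (fun _ => 1) hid (Eventually.of_forall fun s => hasDerivAt_id s), hT1]
  have hpolyan : ∀ P : ℝ[X], AnalyticAt ℝ (fun s => P.eval s) t₀ := fun P =>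
    AnalyticOnNhd.eval_polynomial P t₀ (mem_univ _)
  have hpoly : ∀ P : ℝ[X], T (fun s => P.eval s) = aeval τ P := by
    intro P
    induction P using Polynomial.induction_on with
    | C x => simp only [eval_C, aeval_C]; exact hTc x
    | add P Q hP hQ =>
      simp only [eval_add, map_add]
      rw [hTadd _ _ (hpolyan P) (hpolyan Q), hP, hQ]
    | monomial n x ih =>
      have h1 : (fun s => (C x * X ^ (n + 1)).eval s) = fun s => (C x * X ^ n).eval s * s := by
        funext s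
        rw [pow_succ, ← mul_assoc, eval_mul, eval_X]
      rw [h1, hTmul _ _ (hpolyan _) hid, ih, pow_succ, ← mul_assoc, map_mul _ _ X, aeval_X]
  have hmv : ∀ (f : ℝ → ℝ), AnalyticAt ℝ f t₀ → ∀ P : MvPolynomial (Fin 2) ℝ,
      T (fun s => MvPolynomial.eval ![s, f s] P) = MvPolynomial.aeval ![τ, T f] P := by
    intro f hf P
    induction P using MvPolynomial.induction_on with
    | C x => simp only [MvPolynomial.eval_C, MvPolynomial.aeval_C]; exact hTc x
    | add P Q hP hQ =>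
      simp only [map_add]
      rw [hTadd _ _ (an_eval hf P) (an_eval hf Q), hP, hQ]
    | mul_X P i ih =>
      simp only [map_mul, MvPolynomial.eval_X, MvPolynomial.aeval_X]
      rw [hTmul _ _ (an_eval hf P) (by fin_cases i; exacts [hid, hf]), ih]
      congr 1
      fin_cases i <;> rfl
  have hτtr : Transcendental ℝ τ := by
    rw [transcendental_iff]
    intro P hP
    rw [← hpoly] at hP
    have h1 := hTinj _ (hpolyan P) hP
    exact Polynomial.eq_zero_of_infinite_isRoot P (infinite_of_mem_nhds t₀ h1)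
  -- the field
  set L : IntermediateField ℝ E := IntermediateField.adjoin ℝ {τ} with hL
  set K : Subfield E := (algebraicClosure L E).toSubfield with hK
  have hmemK : ∀ x, x ∈ K ↔ IsAlgebraic L x := fun x => mem_algebraicClosure_iff
  have hLD : ∀ y ∈ L, D y ∈ L := Pool.Agent.W417.HP.der_mem D {τ} (by
    rintro s rfl
    rw [hDτ]; exact one_mem _)
  have hDK : ∀ x ∈ K, D x ∈ K := fun x hx =>
    (hmemK _).2 (Pool.Agent.W417.HP.der_alg D L hLD ((hmemK _).1 hx))
  have hLK : ∀ y ∈ L, y ∈ K := fun y hy =>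
    (hmemK _).2 (isAlgebraic_algebraMap (⟨y, hy⟩ : L))
  have hcK : ∀ c : ℝ, algebraMap ℝ E c ∈ K := fun c => hLK _ (L.algebraMap_mem c)
  have hτK : τ ∈ K := hLK _ (IntermediateField.mem_adjoin_simple_self ℝ τ)
  have hpK : ∀ P : ℝ[X], aeval τ P ∈ K := by
    intro P
    rw [aeval_eq_sum_range]
    refine sum_mem fun i _ => ?_
    rw [Algebra.smul_def]
    exact mul_mem (hcK _) (pow_mem hτK _)
  have halgK : ∀ f : ℝ → ℝ, AnalyticOnNhd ℝ f (Ioo α β) → AlgOn α β f → T f ∈ K := by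
    rintro f hf ⟨P, hP0, hP⟩
    rw [hmemK, hL, alg_iff hτtr]
    refine ⟨P, hP0, ?_⟩
    rw [← hmv f (hf t₀ ht₀), ← hT0]
    apply hTcongr
    filter_upwards [Ioo_mem_nhds ht₀.1 ht₀.2] with s hs
    exact hP s hs
  have halgOn : ∀ f : ℝ → ℝ, AnalyticOnNhd ℝ f (Ioo α β) → T f ∈ K → AlgOn α β f := by
    intro f hf hfK
    rw [hmemK, hL, alg_iff hτtr] at hfK
    obtain ⟨P, hP0, hP⟩ := hfK
    refine ⟨P, hP0, ?_⟩
    rw [← hmv f (hf t₀ ht₀)] at hP
    exact zero_of_near ht₀ (fun t ht => an_eval (hf t ht) P) (hTinj _ (an_eval (hf t₀ ht₀) P) hP)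
  -- sums
  have hTsum : ∀ {ι : Type} (s : Finset ι) (f : ι → ℝ → ℝ), (∀ i, AnalyticAt ℝ (f i) t₀) →
      T (fun t => ∑ i ∈ s, f i t) = ∑ i ∈ s, T (f i) := by
    intro ι s f hf
    classical
    induction s using Finset.induction_on with
    | empty => simp only [Finset.sum_empty]; exact hT0
    | insert i s hi ih =>
      simp only [Finset.sum_insert hi]
      rw [hTadd _ _ (hf i) (Finset.analyticAt_fun_sum _ fun i _ => hf i), ih]
  have hIan := iter_an hu hI0 hI
  -- primitives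
  choose Uf hUfd using fun i => (show ∃ F : ℝ → ℝ, ∀ t ∈ Ioo α β, HasDerivAt F (u i t) t from
    ⟨I [i], fun t ht => by simpa [hI0 t ht] using hI i [] t ht⟩)
  have hUan : ∀ i, AnalyticOnNhd ℝ (Uf i) (Ioo α β) := fun i => an_of_deriv (hu i) (hUfd i)
  have hnear : ∀ᶠ s in 𝓝 t₀, s ∈ Ioo α β := Ioo_mem_nhds ht₀.1 ht₀.2
  have hDU : ∀ i, D (T (Uf i)) = T (u i) := fun i =>
    hTder _ _ (hUan i t₀ ht₀) (hnear.mono fun s hs => hUfd i s hs)
  have hY : ∀ i w, D (T (I (i :: w))) = T (u i) * T (I w) := by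
    intro i w
    rw [← hTmul _ _ (hu i t₀ ht₀) (hIan w t₀ ht₀)]
    exact hTder _ _ (hIan _ t₀ ht₀) (hnear.mono fun s hs => hI i w s hs)
  have hY0 : T (I []) = 1 := by
    rw [← hT1]
    exact hTcongr _ _ (hnear.mono fun s hs => hI0 s hs)
  have hprimE : ∀ (c : κ → E) (g : E), (∀ i, c i ∈ K) → (∀ i, D (c i) = 0) → g ∈ K →
      D g = ∑ i, c i * T (u i) → ∀ i, c i = 0 := by
    intro c g _ hc hg hDg
    choose c' hc' using fun i => hconst (c i) (hc i)
    have h1 : D (g - ∑ i, c i * T (Uf i)) = 0 := by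
      rw [map_sub, hDg, map_sum, sub_eq_zero]
      refine Finset.sum_congr rfl fun i _ => ?_
      rw [Derivation.leibniz, hc i, smul_zero, add_zero, hDU, smul_eq_mul]
    obtain ⟨e, he⟩ := hconst _ h1
    set G : ℝ → ℝ := fun t => ∑ i, c' i * Uf i t with hG
    have hGan : AnalyticOnNhd ℝ G (Ioo α β) := fun t ht =>
      Finset.analyticAt_fun_sum _ fun i _ => analyticAt_const.mul (hUan i t ht)
    have hTG : T G = g - algebraMap ℝ E e := by
      have h2 : T G = ∑ i, c i * T (Uf i) := by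
        rw [hG, hTsum Finset.univ (fun i t => c' i * Uf i t)
          fun i => analyticAt_const.mul (hUan i t₀ ht₀)]
        refine Finset.sum_congr rfl fun i _ => ?_
        rw [hTmul _ _ analyticAt_const (hUan i t₀ ht₀), hTc, hc']
      rw [h2, he]; ring
    have h3 := hprim c' ⟨G, halgOn G hGan (by rw [hTG]; exact sub_mem hg (hcK e)), fun t ht => by
      have h4 := HasDerivAt.fun_sum (u := Finset.univ) (A := fun i t => c' i * Uf i t)
        (A' := fun i => c' i * u i t) (x := t) fun i _ => (hUfd i t ht).const_mul (c' i)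
      exact h4⟩
    intro i
    rw [← hc' i, h3]
    simp
  -- the relation
  let g : List κ → E := fun w => if h : w ∈ wd κ W then
    ∑ l, aeval τ (p (⟨w, h⟩, l)) * T (v l) else 0
  have hgK : ∀ w, g w ∈ K := by
    intro w
    simp only [g]
    split_ifs with h
    · exact sum_mem fun l _ => mul_mem (hpK _) (halgK _ (hv l) (hva l))
    · exact zero_mem _
  have hrel : ∑ w ∈ wd κ W, g w * T (I w) = 0 := by
    have h1 : T (fun t => ∑ x : {w // w ∈ wd κ W} × ρ, (p x).eval t * (v x.2 t * I x.1 t)) = 0 := by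
      rw [← hT0]
      apply hTcongr
      filter_upwards [Ioo_mem_nhds ht₀'.1 ht₀'.2] with s hs
      exact hp s ⟨hs.1.le, hs.2.le⟩
    rw [hTsum Finset.univ
      (fun (x : {w // w ∈ wd κ W} × ρ) t => (p x).eval t * (v x.2 t * I x.1 t))
      fun x => (hpolyan (p x)).mul ((hv x.2 t₀ ht₀).mul (hIan x.1 t₀ ht₀)),
      Fintype.sum_prod_type] at h1
    rw [← h1, ← Finset.sum_attach (wd κ W) fun w => g w * T (I w), Finset.univ_eq_attach]
    refine Finset.sum_congr rfl fun w _ => ?_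
    have h2 : g w = ∑ l, aeval τ (p (w, l)) * T (v l) := dif_pos w.2
    rw [h2, Finset.sum_mul]
    refine Finset.sum_congr rfl fun l _ => ?_
    rw [hTmul (fun t => (p (w, l)).eval t) (fun t => v l t * I w t) (hpolyan _)
      ((hv l t₀ ht₀).mul (hIan w t₀ ht₀)),
      hTmul (v l) (I w) (hv l t₀ ht₀) (hIan w t₀ ht₀), hpoly]
    ring
  have hg0 := indep D K hDK (fun i => T (u i)) (fun i => halgK _ (hu i) (hua i)) hprimE
    (fun w => T (I w)) hY0 hY W g hgK hrel
  funext x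
  obtain ⟨⟨w, hw⟩, l⟩ := x
  have h1 := hg0 w hw
  have h2 : g w = ∑ l, aeval τ (p (⟨w, hw⟩, l)) * T (v l) := dif_pos hw
  rw [h2] at h1
  have h3 : T (fun t => ∑ l, (p (⟨w, hw⟩, l)).eval t * v l t) = 0 := by
    rw [hTsum Finset.univ (fun l t => (p (⟨w, hw⟩, l)).eval t * v l t)
      fun l => (hpolyan _).mul (hv l t₀ ht₀), ← h1]
    refine Finset.sum_congr rfl fun l _ => ?_
    rw [hTmul (fun t => (p (⟨w, hw⟩, l)).eval t) (v l) (hpolyan _) (hv l t₀ ht₀), hpoly]
  have h4 := zero_of_near ht₀ (fun t ht => Finset.analyticAt_fun_sum _ fun l _ =>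
    (AnalyticOnNhd.eval_polynomial (p (⟨w, hw⟩, l)) t (mem_univ _)).mul (hv l t ht))
    (hTinj _ (Finset.analyticAt_fun_sum _ fun l _ => (hpolyan _).mul (hv l t₀ ht₀)) h3)
  exact congrFun (hvi (fun l => p (⟨w, hw⟩, l)) h4) l

end Pool.Agent.Y119.UP
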