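import Pool.Agent.Y119.UP.Ind
import Pool.Agent.TH818.AP.Api

/-!
# Iterated integrals at almost all rational points
-/

set_option autoImplicit false

open Filter Set Polynomial
open scoped Topology

namespace Pool.Agent.Y119.UP

open Pool.Agent.TH818.AP

/-- words of length at most `W` -/
abbrev Words (κ : Type) (W : ℕ) : Type := (l : Fin (W + 1)) × (Fin l → κ)

/-- words as lists -/
def wEquiv (κ : Type) [Fintype κ] [DecidableEq κ] (W : ℕ) : Words κ W ≃ {w // w ∈ wd κ W} where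
  toFun x := ⟨List.ofFn x.2, by
    rw [mem_wd, List.length_ofFn]
    exact Nat.lt_succ_iff.1 x.1.2⟩
  invFun w := ⟨⟨w.1.length, Nat.lt_succ_iff.2 ((mem_wd _ _).1 w.2)⟩, w.1.get⟩
  left_inv x := by
    obtain ⟨⟨l, hl⟩, f⟩ := x
    have h1 := (List.equivSigmaTuple (α := κ)).right_inv ⟨l, f⟩
    simp only [List.equivSigmaTuple] at h1
    rw [Sigma.mk.injEq] at h1
    refine Sigma.ext (Fin.ext h1.1) ?_
    exact h1.2
  right_inv w := Subtype.ext (List.ofFn_get w.1)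

/-- the exceptional points -/
def Exc {κ ρ : Type} [Fintype κ] [Fintype ρ] (n d W : ℕ) (v : Fin n → ρ → ℝ → ℝ)
    (I : Fin n → List κ → ℝ → ℝ) (a b : Fin n → ℝ) (A B T : ℝ) : Set (Fin n → ℚ) :=
  {q | (∀ j, a j ≤ q j ∧ q j ≤ b j ∧ ((q j).den : ℝ) ≤ T) ∧
    ∃ c : (Fin n → Words κ W × ρ) × Fin (d + 1) → ℤ, c ≠ 0 ∧ (∀ x, |(c x : ℝ)| ≤ T ^ A) ∧
      |∑ x, (c x : ℝ) * ((∏ j, v j (x.1 j).2 (q j) * I j (List.ofFn (x.1 j).1.2) (q j)) *
        Real.pi ^ (x.2 : ℕ))| ≤ T ^ (-B)}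

/-- the conditions on a family -/
structure Fam {κ ρ : Type} [Fintype κ] [Fintype ρ] (α β : ℝ) (u : κ → ℝ → ℝ) (v : ρ → ℝ → ℝ)
    (I : List κ → ℝ → ℝ) : Prop where
  hu : ∀ i, AnalyticOnNhd ℝ (u i) (Ioo α β)
  hua : ∀ i, AlgOn α β (u i)
  hprim : ∀ c : κ → ℝ, AlgPrim α β (fun t => ∑ i, c i * u i t) → c = 0
  hv : ∀ l, AnalyticOnNhd ℝ (v l) (Ioo α β)
  hva : ∀ l, AlgOn α β (v l)
  hvi : ∀ p : ρ → ℝ[X], (∀ t ∈ Ioo α β, ∑ l, (p l).eval t * v l t = 0) → p = 0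
  hI0 : ∀ t ∈ Ioo α β, I [] t = 1
  hI : ∀ i w, ∀ t ∈ Ioo α β, HasDerivAt (I (i :: w)) (u i t * I w t) t

theorem Fam.rindep {κ ρ : Type} [Fintype κ] [Fintype ρ] {α β a b : ℝ} {u : κ → ℝ → ℝ}
    {v : ρ → ℝ → ℝ} {I : List κ → ℝ → ℝ} (h : Fam α β u v I) (ha : α < a) (hab : a < b)
    (hb : b < β) (W : ℕ) :
    RIndep (fun (x : Words κ W × ρ) (t : ℝ) => v x.2 t * I (List.ofFn x.1.2) t) a b := by
  classical
  have hind := main_ind ha hab hb h.hu h.hua h.hprim h.hv h.hva h.hvi h.hI0 h.hI W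
  intro p hp
  have h1 := hind (fun y => p ((wEquiv κ W).symm y.1, y.2)) (fun t ht => by
    rw [← hp t ht]
    refine Fintype.sum_equiv ((wEquiv κ W).symm.prodCongr (Equiv.refl ρ)) _ _ fun y => ?_
    obtain ⟨w, l⟩ := y
    have h2 : List.ofFn ((wEquiv κ W).symm w).2 = w.1 :=
      congrArg Subtype.val ((wEquiv κ W).apply_symm_apply w)
    show (p ((wEquiv κ W).symm w, l)).eval t * (v l t * I w.1 t) =
      (p ((wEquiv κ W).symm w, l)).eval t *
        (v l t * I (List.ofFn ((wEquiv κ W).symm w).2) t)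
    rw [h2])
  funext x
  have h3 := congrFun h1 (wEquiv κ W x.1, x.2)
  simp only [Equiv.symm_apply_apply] at h3
  exact h3

theorem almost_all {κ ρ : Type} [Fintype κ] [Fintype ρ] [Nonempty ρ] (n d W : ℕ) (hn : 1 ≤ n)
    (α a b β : Fin n → ℝ) (hab : ∀ j, α j < a j ∧ a j < b j ∧ b j < β j)
    (u : Fin n → κ → ℝ → ℝ) (v : Fin n → ρ → ℝ → ℝ) (I : Fin n → List κ → ℝ → ℝ)
    (hF : ∀ j, Fam (α j) (β j) (u j) (v j) (I j)) (A γ : ℝ) (hA : 0 ≤ A)
    (hγ : 2 - 2 / ((((∑ l ∈ Finset.range (W + 1), Fintype.card κ ^ l) * Fintype.card ρ : ℕ) : ℝ) ^ n *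
      ((d : ℝ) + 1) + 1) < γ) :
    ∃ B C : ℝ, ∀ T : ℝ, 1 ≤ T → (Exc n d W v I a b A B T).Finite ∧
      ((Exc n d W v I a b A B T).ncard : ℝ) ≤ C * T ^ (2 * ((n : ℝ) - 1) + γ) := by
  classical
  have hι : 0 < Fintype.card (Words κ W × ρ) := by
    have : Nonempty (Words κ W × ρ) := ⟨(⟨⟨0, Nat.succ_pos W⟩, fun i => i.elim0⟩, Classical.arbitrary ρ)⟩
    exact Fintype.card_pos
  have hcard : Fintype.card (Words κ W × ρ) =
      (∑ l ∈ Finset.range (W + 1), Fintype.card κ ^ l) * Fintype.card ρ := by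
    rw [Fintype.card_prod, Fintype.card_sigma]
    congr 1
    rw [Finset.sum_range]
    refine Finset.sum_congr rfl fun l _ => ?_
    rw [Fintype.card_fun, Fintype.card_fin]
  have hIan := fun j => iter_an (hF j).hu (hF j).hI0 (hF j).hI
  obtain ⟨B, C, h⟩ := multi_gen hι _ (goodConst_pi d) n hn
    (fun j (x : Words κ W × ρ) (t : ℝ) => v j x.2 t * I j (List.ofFn x.1.2) t) a b
    (fun j => (hab j).2.1) (fun j x t ht => ((hF j).hv x.2 t
      ⟨by linarith [ht.1, (hab j).1], by linarith [ht.2, (hab j).2.2]⟩).mul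
      (hIan j _ t ⟨by linarith [ht.1, (hab j).1], by linarith [ht.2, (hab j).2.2]⟩))
    (fun j => (hF j).rindep (hab j).1 (hab j).2.1 (hab j).2.2 W) A γ hA (by
      rw [hcard, Fintype.card_fin]
      refine lt_of_le_of_lt (le_of_eq ?_) hγ
      push_cast
      set M : ℝ := ((∑ l ∈ Finset.range (W + 1), (Fintype.card κ : ℝ) ^ l) *
        (Fintype.card ρ : ℝ)) ^ n * ((d : ℝ) + 1) with hM
      have hM0 : 0 ≤ M := by positivity
      field_simp
      ring)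
  refine ⟨B, C, fun T hT => ?_⟩
  have heq : Exc n d W v I a b A B T =
      ExcM (fun j (x : Words κ W × ρ) (t : ℝ) => v j x.2 t * I j (List.ofFn x.1.2) t)
        (fun e : Fin (d + 1) => Real.pi ^ (e : ℕ)) a b A B T := by
    ext q
    simp only [Exc, ExcM, mono, Set.mem_ofPred_eq, mem_Icc, and_assoc]
  rw [heq]
  exact h T hT

end Pool.Agent.Y119.UP
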